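import Pool.Agent.U168.UQ.Stm

/-!
# Project UQ, package LO: from the icosian lattice to three squares
-/

set_option autoImplicit false

namespace Pool.Agent.U955.UQ

open Pool.Agent.U168.UQ

/-- `x` is divisible by `√2` -/
def Dv (x : K) : Prop := ∃ y : K, Int4 y ∧ x = r * y

lemma dv_mk (a b c d : ℤ) : Dv (mk a b c d) ↔ Even a ∧ Even c := by
  constructor
  · rintro ⟨y, ⟨a', b', c', d', rfl⟩, h⟩
    rw [r, mk_mul, mk_inj] at h
    obtain ⟨h1, -, h3, -⟩ := h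
    have h1' : (a : ℚ) = ((2 * b' : ℤ) : ℚ) := by push_cast; linarith
    have h3' : (c : ℚ) = ((2 * d' : ℤ) : ℚ) := by push_cast; linarith
    have h1'' : a = 2 * b' := by exact_mod_cast h1'
    have h3'' : c = 2 * d' := by exact_mod_cast h3'
    exact ⟨⟨b', by omega⟩, ⟨d', by omega⟩⟩
  · rintro ⟨⟨a', ha⟩, ⟨c', hc⟩⟩
    refine ⟨mk b a' d c', ⟨b, a', d, c', rfl⟩, ?_⟩
    subst ha hc
    rw [r, mk_mul, mk_inj]
    push_cast
    refine ⟨by ring, by ring, by ring, by ring⟩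

lemma r_ne : r ≠ 0 := by
  intro h
  have := r_sq
  rw [h] at this
  norm_num at this

/-- one of the five linear forms is divisible by `√2` -/
lemma five (t u : K) (ht : Int4 t) (hu : Int4 u) :
    Dv u ∨ Dv t ∨ Dv (u - (f - 1) * t) ∨ Dv (t + u) ∨ Dv (t - (f - 1) * u) := by
  obtain ⟨a, b, c, d, rfl⟩ := ht
  obtain ⟨a', b', c', d', rfl⟩ := hu
  have h1 : mk a' b' c' d' - (f - 1) * mk a b c d =
      mk ((a' - c + a : ℤ) : ℚ) ((b' - d + b : ℤ) : ℚ) ((c' - a : ℤ) : ℚ) ((d' - b : ℤ) : ℚ) := by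
    rw [f, ← mk_one, mk_sub, mk_mul, mk_sub, mk_inj]
    push_cast
    refine ⟨by ring, by ring, by ring, by ring⟩
  have h2 : mk a b c d + mk a' b' c' d' =
      mk ((a + a' : ℤ) : ℚ) ((b + b' : ℤ) : ℚ) ((c + c' : ℤ) : ℚ) ((d + d' : ℤ) : ℚ) := by
    push_cast
    rw [mk_add]
  have h3 : mk a b c d - (f - 1) * mk a' b' c' d' =
      mk ((a - c' + a' : ℤ) : ℚ) ((b - d' + b' : ℤ) : ℚ) ((c - a' : ℤ) : ℚ) ((d - b' : ℤ) : ℚ) := by
    rw [f, ← mk_one, mk_sub, mk_mul, mk_sub, mk_inj]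
    push_cast
    refine ⟨by ring, by ring, by ring, by ring⟩
  rw [h1, h2, h3, dv_mk, dv_mk, dv_mk, dv_mk, dv_mk]
  simp only [Int.even_add, Int.even_sub]
  tauto

lemma dv_mul (x y : K) (hx : Int4 x) (hy : Int4 y) (h : Dv (x * y)) : Dv x ∨ Dv y := by
  obtain ⟨a, b, c, d, rfl⟩ := hx
  obtain ⟨a', b', c', d', rfl⟩ := hy
  have h1 : mk a b c d * mk a' b' c' d' =
      mk ((a * a' + 2 * b * b' + c * c' + 2 * d * d' : ℤ) : ℚ)
        ((a * b' + b * a' + c * d' + d * c' : ℤ) : ℚ)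
        ((a * c' + c * a' + c * c' + 2 * b * d' + 2 * d * b' + 2 * d * d' : ℤ) : ℚ)
        ((a * d' + d * a' + b * c' + c * b' + c * d' + d * c' : ℤ) : ℚ) := by
    rw [mk_mul, mk_inj]
    push_cast
    refine ⟨by ring, by ring, by ring, by ring⟩
  rw [h1, dv_mk] at h
  rw [dv_mk, dv_mk]
  simp only [Int.even_add, Int.even_mul, even_two, true_or] at h
  tauto

lemma case1 (s t u : K) (hs : Int4 s) (ht : Int4 t) (hu : Int4 u) :
    ∃ B C D : K, Int4 B ∧ Int4 C ∧ Int4 D ∧ 2 * Q s t u = B ^ 2 + C ^ 2 + D ^ 2 := by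
  have hr := int4_r
  have hf := int4_f
  have h1 := int4_one
  have hr2 := r_sq
  have hf2 := f_sq
  rcases five t u ht hu with ⟨x, hx, h⟩ | ⟨x, hx, h⟩ | ⟨x, hx, h⟩ | ⟨x, hx, h⟩ | ⟨x, hx, h⟩
  · refine ⟨r * s + r * t + x, r * s + (f - 1) * x, r * s + f * x,
      ((hr.mul hs).add (hr.mul ht)).add hx, (hr.mul hs).add ((hf.sub h1).mul hx),
      (hr.mul hs).add (hf.mul hx), ?_⟩
    subst h
    unfold Q
    linear_combination (-((2) * s * t + (3) * s ^ 2 + t ^ 2 + (-2) * x ^ 2)) * hr2 +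
      (-((2) * x ^ 2)) * hf2
  · refine ⟨r * f * s + x + r * u, r * (f - 1) * s + (f - 1) * x, - (f * x),
      (((hr.mul hf).mul hs).add hx).add (hr.mul hu),
      ((hr.mul (hf.sub h1)).mul hs).add ((hf.sub h1).mul hx), (hf.mul hx).neg, ?_⟩
    subst h
    unfold Q
    linear_combination (-((2)*f*s*u + (-2)*f*s^2 + (2)*f^2*s^2 + s^2 + u^2 + (-2)*x^2)) * hr2 +
      (-((2)*r*s*x + (4)*s^2 + (2)*x^2)) * hf2
  · refine ⟨r * s + x, r * s + r * t + (f - 1) * x, - (r * s + r * t + f * x),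
      (hr.mul hs).add hx, ((hr.mul hs).add (hr.mul ht)).add ((hf.sub h1).mul hx),
      (((hr.mul hs).add (hr.mul ht)).add (hf.mul hx)).neg, ?_⟩
    have h' : u = (f - 1) * t + r * x := by linear_combination h
    subst h'
    unfold Q
    linear_combination (-((4)*s*t + (3)*s^2 + (2)*t^2 + (-2)*x^2)) * hr2 +
      (-((-4)*s*t + (-2)*t^2 + (2)*x^2)) * hf2
  · refine ⟨(1 - f) * x, r * f * s + f * x, r * (1 - f) * s + r * t - x,
      (h1.sub hf).mul hx, ((hr.mul hf).mul hs).add (hf.mul hx),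
      (((hr.mul (h1.sub hf)).mul hs).add (hr.mul ht)).sub hx, ?_⟩
    have h' : u = r * x - t := by linear_combination h
    subst h'
    unfold Q
    linear_combination (-((-2)*f*s*t + (-2)*f*s^2 + (2)*f^2*s^2 + (2)*s*t + s^2 + t^2 +
      (-2)*x^2)) * hr2 + (-((2)*r*s*x + (4)*s^2 + (2)*x^2)) * hf2
  · refine ⟨x, r * f * s + r * u + (f - 1) * x, r * (f - 1) * s + r * u + f * x,
      hx, (((hr.mul hf).mul hs).add (hr.mul hu)).add ((hf.sub h1).mul hx),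
      (((hr.mul (hf.sub h1)).mul hs).add (hr.mul hu)).add (hf.mul hx), ?_⟩
    have h' : t = (f - 1) * u + r * x := by linear_combination h
    subst h'
    unfold Q
    linear_combination (-((4)*f*s*u + (-2)*f*s^2 + (2)*f^2*s^2 + (-2)*s*u + s^2 + (2)*u^2 +
      (-2)*x^2)) * hr2 + (-((4)*r*s*x + (4)*s^2 + (-2)*u^2 + (2)*x^2)) * hf2

/-- case 2 with the third coordinate divisible by `√2` -/
lemma case2 (α s t x : K) (hα : Int4 α) (hs : Int4 s) (ht : Int4 t) (hx : Int4 x)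
    (h : Q s t (r * x) = 2 * α) :
    ∃ B C D : K, Int4 B ∧ Int4 C ∧ Int4 D ∧ 2 * α = B ^ 2 + C ^ 2 + D ^ 2 := by
  have hr := int4_r
  have hf := int4_f
  have h1 := int4_one
  have hr2 := r_sq
  have hf2 := f_sq
  have h2 : Int4 (2 : K) := int4_ofNat 2
  have hd1 : Dv ((s + t) * (s + t)) := by
    refine ⟨r * α - r * (s * s) - r * (x * x) - 2 * (f * (s * x)) - t * x,
      ((((hr.mul hα).sub (hr.mul (hs.mul hs))).sub (hr.mul (hx.mul hx))).sub
        (h2.mul (hf.mul (hs.mul hx)))).sub (ht.mul hx), ?_⟩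
    unfold Q at h
    linear_combination h - (α - s ^ 2) * hr2
  have hd2 : Dv (s + t) := by
    rcases dv_mul _ _ (hs.add ht) (hs.add ht) hd1 with h' | h' <;> exact h'
  obtain ⟨w, hw, hst⟩ := hd2
  have ht' : t = r * w - s := by linear_combination hst
  subst ht'
  have hd3 : Dv (s * x) := by
    refine ⟨s * s + w * w + x * x + f * (r * (s * x)) + w * x - α,
      (((((hs.mul hs).add (hw.mul hw)).add (hx.mul hx)).add (hf.mul (hr.mul (hs.mul hx)))).add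
        (hw.mul hx)).sub hα, ?_⟩
    apply mul_left_cancel₀ r_ne
    unfold Q at h
    linear_combination -h + ((-1)*f*r*s*x + (-1)*s^2 + α) * hr2
  rcases dv_mul _ _ hs hx hd3 with ⟨s1, hs1, rfl⟩ | ⟨x1, hx1, rfl⟩
  · obtain ⟨B, C, D, hB, hC, hD, hh⟩ := case1 s1 (w - s1) x hs1 (hw.sub hs1) hx
    refine ⟨B, C, D, hB, hC, hD, ?_⟩
    rw [← hh]
    unfold Q at h ⊢
    linear_combination -h + ((2)*f*s1*x + (-1)*s1*x + (2)*s1^2 + w*x + w^2 + x^2) * hr2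
  · refine ⟨s + (r * w - s) + x1, s + (f - 1) * x1, s + f * x1,
      (hs.add ht).add hx1, hs.add ((hf.sub h1).mul hx1), hs.add (hf.mul hx1), ?_⟩
    rw [← h]
    unfold Q
    linear_combination ((2)*f*s*x1 + r*w*x1 + r^2*x1^2 + (-1)*s*x1 + (2)*x1^2) * hr2 +
      ((-2)*x1^2) * hf2

theorem t_LO : S_LO := by
  intro α s t u hα hs ht hu h
  rcases h with h | h
  · rw [← h]; exact case1 s t u hs ht hu
  have hr := int4_r
  have hf := int4_f
  have h1 := int4_one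
  have hr2 := r_sq
  have hf2 := f_sq
  have i2 : Int4 (2 : K) := int4_ofNat 2
  have i3 : Int4 (3 : K) := int4_ofNat 3
  have i4 : Int4 (4 : K) := int4_ofNat 4
  rcases five t u ht hu with ⟨x, hx, h'⟩ | ⟨x, hx, h'⟩ | ⟨x, hx, h'⟩ | ⟨x, hx, h'⟩ | ⟨x, hx, h'⟩
  · subst h'
    exact case2 α s t x hα hs ht hx h
  · subst h'
    refine case2 α (s + r * x) ((2 * f - 2) * s + (f - 1) * (r * x) + u)
      (r * ((1 - f) * s) + (1 - 2 * f) * x) hα (hs.add (hr.mul hx))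
      (((((i2.mul hf).sub i2).mul hs).add ((hf.sub h1).mul (hr.mul hx))).add hu)
      ((hr.mul ((h1.sub hf).mul hs)).add ((h1.sub (i2.mul hf)).mul hx)) ?_
    rw [← h]
    unfold Q
    linear_combination ((-2)*f*r*s*x + (-2)*f*r^2*s^2 + (-1)*f*s*u + (2)*f*s^2 + f*x^2 + f^2*r*s*x +
      f^2*r^2*s^2 + (-2)*f^2*s^2 + (-1)*f^2*x^2 + r*s*x + r^2*s^2 + s*u + x^2) * hr2 +
      ((-2)*r*s*x + (-2)*x^2) * hf2
  · have h'' : u = (f - 1) * t + r * x := by linear_combination h'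
    subst h''
    refine case2 α ((2 * f - 1) * s + f * t + ((f - 1) * t + r * x))
      ((4 - 2 * f) * s + (1 - f) * t + (f - 1) * ((f - 1) * t + r * x))
      ((1 - 2 * f) * x - 2 * r * s - 2 * r * t) hα
      (((((i2.mul hf).sub h1).mul hs).add (hf.mul ht)).add hu)
      ((((i4.sub (i2.mul hf)).mul hs).add ((h1.sub hf).mul ht)).add ((hf.sub h1).mul hu))
      ((((h1.sub (i2.mul hf)).mul hx).sub ((i2.mul hr).mul hs)).sub ((i2.mul hr).mul ht)) ?_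
    rw [← h]
    unfold Q
    linear_combination ((2)*f*r*s*x + (2)*f*r*t*x + (18)*f*s*t + (8)*f*s^2 + (10)*f*t^2 + f*x^2 +
      (-18)*f^2*s*t + (-8)*f^2*s^2 + (-10)*f^2*t^2 + (-1)*f^2*x^2 + (-2)*r*s*x + (-2)*r*t*x +
      (8)*r^2*s*t + (4)*r^2*s^2 + (4)*r^2*t^2 + (4)*s*t + (4)*t^2 + x^2) * hr2 +
      ((-8)*f*r*s*x + (-8)*f*r*t*x + (-1)*f*t^2 + f^2*t^2 + (4)*r*s*x + (5)*r*t*x + (-16)*s*t +
      (-8)*s^2 + (-10)*t^2 + (-2)*x^2) * hf2
  · have h'' : u = r * x - t := by linear_combination h'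
    subst h''
    refine case2 α (3 * s + t + f * (r * x - t))
      ((2 * f - 4) * s - t + (1 - f) * (r * x - t))
      (r * ((1 - 2 * f) * s) + r * t - (1 + f) * x) hα
      (((i3.mul hs).add ht).add (hf.mul hu))
      (((((i2.mul hf).sub i4).mul hs).sub ht).add ((h1.sub hf).mul hu))
      (((hr.mul ((h1.sub (i2.mul hf)).mul hs)).add (hr.mul ht)).sub ((h1.add hf).mul hx)) ?_
    rw [← h]
    unfold Q
    linear_combination ((-1)*f*r*s*x + (-3)*f*r*t*x + (-4)*f*r^2*s*t + (-4)*f*r^2*s^2 + (7)*f*s*t +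
      (8)*f*s^2 + (3)*f*t^2 + (2)*f*x^2 + (8)*f^2*r*s*x + (2)*f^2*r*t*x + (4)*f^2*r^2*s^2 +
      (-8)*f^2*s*t + (-8)*f^2*s^2 + (-2)*f^2*t^2 + (2)*f^2*x^2 + (-4)*f^3*r*s*x + (4)*f^3*s*t +
      (-2)*f^3*x^2 + (-1)*r*s*x + (-1)*r*t*x + (2)*r^2*s*t + r^2*s^2 + r^2*t^2 + (-2)*s*t +
      (-2)*s^2) * hr2 +
      ((-8)*f*r*s*x + (2)*f*r*t*x + (8)*f*s*t + (-4)*f*x^2 + r*t*x + (-8)*s*t + (-12)*s^2 +
      (-2)*t^2) * hf2
  · have h'' : t = (f - 1) * u + r * x := by linear_combination h'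
    subst h''
    refine case2 α ((2 * f - 1) * s + u) ((2 - 2 * f) * s - u) (x - r * s) hα
      ((((i2.mul hf).sub h1).mul hs).add hu)
      (((i2.sub (i2.mul hf)).mul hs).sub hu)
      (hx.sub (hr.mul hs)) ?_
    rw [← h]
    unfold Q
    linear_combination ((-2)*f*s*u + (4)*f*s^2 + (-4)*f^2*s^2 + (-2)*r*s*x + r^2*s^2 + s*u) * hr2 +
      ((4)*r*s*x + (-1)*u^2) * hf2

end Pool.Agent.U955.UQ
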